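import Mathlib

set_option autoImplicit false

open Filter Topology

namespace Pool.Agent.Results.MP_a75ade_an.NoMontessusSets

noncomputable section

/-- The exponent `(j,k)` of the monomial `z₁^j z₂^k`. -/
def idx (j k : ℕ) : Fin 2 →₀ ℕ := Finsupp.single 0 j + Finsupp.single 1 k

/-- Interpolation sets for type `(n,ν)`: exactly `(n+1)(n+2)/2 + (ν+1)(ν+2)/2 - 1` elements,
containing all `(j,k)` with `j + k ≤ n`, and downward closed. -/
def IsInterpolationSet (n ν : ℕ) (S : Finset (ℕ × ℕ)) : Prop :=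
  S.card = (n + 1) * (n + 2) / 2 + (ν + 1) * (ν + 2) / 2 - 1 ∧
  (∀ j k : ℕ, j + k ≤ n → (j, k) ∈ S) ∧
  (∀ j k l m : ℕ, (j, k) ∈ S → l ≤ j → m ≤ k → (l, m) ∈ S)

/-- `P/Q` is a rational approximant of type `(n,ν)` to the power series `f` corresponding to `S`:
`deg P ≤ n`, `Q ≠ 0`, `deg Q ≤ ν` and the coefficients of `Q f - P` with index in `S` vanish. -/
def IsApproximant (n ν : ℕ) (S : Finset (ℕ × ℕ)) (f : MvPowerSeries (Fin 2) ℂ)
    (P Q : MvPolynomial (Fin 2) ℂ) : Prop :=
  P.totalDegree ≤ n ∧ Q ≠ 0 ∧ Q.totalDegree ≤ ν ∧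
  ∀ j k : ℕ, (j, k) ∈ S → MvPowerSeries.coeff (idx j k)
    ((Q : MvPowerSeries (Fin 2) ℂ) * f - (P : MvPowerSeries (Fin 2) ℂ)) = 0

/-- The formal power series `f` is the Taylor series at the origin of the function `h`. -/
def IsTaylorSeriesAtZero (f : MvPowerSeries (Fin 2) ℂ) (h : (Fin 2 → ℂ) → ℂ) : Prop :=
  ∀ᶠ z in 𝓝 (0 : Fin 2 → ℂ),
    HasSum (fun m : Fin 2 →₀ ℕ => MvPowerSeries.coeff m f * ∏ i, z i ^ m i) (h z)

/-- Locally uniform convergence of `P_n/Q_n` to `h` on `Ω`: for every compact `K ⊆ Ω` the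
polynomial `Q_n` has no zero on `K` for all large `n` and `P_n/Q_n → h` uniformly on `K`. -/
def ConvergesOn (P Q : ℕ → MvPolynomial (Fin 2) ℂ) (h : (Fin 2 → ℂ) → ℂ)
    (Ω : Set (Fin 2 → ℂ)) : Prop :=
  ∀ K : Set (Fin 2 → ℂ), K ⊆ Ω → IsCompact K →
    (∀ᶠ n in atTop, ∀ z ∈ K, MvPolynomial.eval z (Q n) ≠ 0) ∧
    TendstoUniformlyOn
      (fun n z => MvPolynomial.eval z (P n) / MvPolynomial.eval z (Q n)) h atTop K

@[simp] lemma idx_zero (j k : ℕ) : idx j k 0 = j := by simp [idx]

@[simp] lemma idx_one (j k : ℕ) : idx j k 1 = k := by simp [idx]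

lemma eq_idx (m : Fin 2 →₀ ℕ) : m = idx (m 0) (m 1) := by
  ext i
  fin_cases i
  · simp
  · simp

lemma idx_le (a b j k : ℕ) : idx a b ≤ idx j k ↔ a ≤ j ∧ b ≤ k := by
  constructor
  · intro h
    have h0 := h 0
    have h1 := h 1
    exact ⟨by simpa using h0, by simpa using h1⟩
  · rintro ⟨h0, h1⟩ i
    fin_cases i
    · simpa using h0
    · simpa using h1

lemma idx_sub (a b j k : ℕ) : idx j k - idx a b = idx (j - a) (k - b) := by
  ext i
  fin_cases i
  · simp
  · simp

lemma idx_inj (a b j k : ℕ) : idx a b = idx j k ↔ a = j ∧ b = k := by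
  constructor
  · intro h
    have h0 : idx a b 0 = idx j k 0 := by rw [h]
    have h1 : idx a b 1 = idx j k 1 := by rw [h]
    exact ⟨by simpa using h0, by simpa using h1⟩
  · rintro ⟨rfl, rfl⟩
    rfl

lemma idx_sum (a b : ℕ) : ((idx a b).sum fun _ e => e) = a + b := by
  rw [Finsupp.sum_fintype _ _ (fun _ => rfl), Fin.sum_univ_two, idx_zero, idx_one]

/-- The full triangle `{(j,k) : j + k ≤ n}`. -/
def tri (n : ℕ) : Finset (ℕ × ℕ) :=
  (Finset.range (n + 1) ×ˢ Finset.range (n + 1)).filter (fun x => x.1 + x.2 ≤ n)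

lemma mem_tri (n : ℕ) (x : ℕ × ℕ) : x ∈ tri n ↔ x.1 + x.2 ≤ n := by
  simp only [tri, Finset.mem_filter, Finset.mem_product, Finset.mem_range]
  omega

lemma card_tri (n : ℕ) : (tri n).card = (n + 1) * (n + 2) / 2 := by
  have h : tri n = (Finset.range (n + 1)).biUnion (fun s => Finset.HasAntidiagonal.antidiagonal s) := by
    ext x
    simp only [mem_tri, Finset.mem_biUnion, Finset.mem_range,
      Finset.HasAntidiagonal.mem_antidiagonal]
    constructor
    · intro h
      exact ⟨x.1 + x.2, by omega, rfl⟩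
    · rintro ⟨s, hs, h⟩
      omega
  rw [h, Finset.card_biUnion]
  · simp only [Finset.Nat.card_antidiagonal]
    have h2 := Finset.sum_range_id_mul_two (n + 2)
    rw [Finset.sum_range_succ'] at h2
    have h3 : (∑ i ∈ Finset.range (n + 1), (i + 1)) * 2 = (n + 1) * (n + 2) := by
      have : n + 2 - 1 = n + 1 := by omega
      rw [this] at h2
      linarith
    omega
  · intro s _ t _ hst
    rw [Function.onFun, Finset.disjoint_left]
    intro x hx hx2
    rw [Finset.HasAntidiagonal.mem_antidiagonal] at hx hx2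
    omega

/-- Sanity check: interpolation sets exist for every type. -/
lemma exists_interpolationSet (n ν : ℕ) : ∃ S, IsInterpolationSet n ν S := by
  classical
  set m := (ν + 1) * (ν + 2) / 2 - 1 with hm
  have hpos : 1 ≤ (ν + 1) * (ν + 2) / 2 := by
    rw [Nat.le_div_iff_mul_le (by norm_num)]
    nlinarith
  refine ⟨tri n ∪ (Finset.range m).image (fun i => (n + 1 + i, 0)), ?_, ?_, ?_⟩
  · rw [Finset.card_union_of_disjoint, card_tri, Finset.card_image_of_injective,
      Finset.card_range]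
    · omega
    · intro i j hij
      simpa using hij
    · rw [Finset.disjoint_left]
      intro x hx hx2
      rw [mem_tri] at hx
      simp only [Finset.mem_image, Finset.mem_range] at hx2
      obtain ⟨i, _, rfl⟩ := hx2
      simp only at hx
      omega
  · intro j k h
    rw [Finset.mem_union, mem_tri]
    left
    exact h
  · intro j k l r h hl hr
    simp only [Finset.mem_union, mem_tri, Finset.mem_image, Finset.mem_range,
      Prod.mk.injEq] at h ⊢
    rcases h with h | ⟨i, hi, h1, h2⟩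
    · left
      omega
    · by_cases hln : l ≤ n
      · left
        omega
      · right
        exact ⟨l - (n + 1), by omega, by omega, by omega⟩

/-- The combinatorial obstruction: if `n = ν t` with `t ≥ 1`, `ν = p + 1 ≥ 2`, every
interpolation set for type `(n,ν)` misses one of the classes `j - p k = a - p b`, `a + b ≤ ν`,
above the triangle. -/
lemma missed_class (p t : ℕ) (hp : 1 ≤ p) (ht : 1 ≤ t) (S : Finset (ℕ × ℕ))
    (hS : IsInterpolationSet ((p + 1) * t) (p + 1) S) :
    ∃ a b : ℕ, a + b ≤ p + 1 ∧ ∀ j k : ℕ, (j, k) ∈ S → (p + 1) * t < j + k →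
      (j : ℤ) - p * k ≠ (a : ℤ) - p * b := by
  classical
  set n := (p + 1) * t with hn
  by_contra hcon
  push Not at hcon
  obtain ⟨hcard, htri, hdown⟩ := hS
  -- the extra points
  set E := S.filter (fun x => n < x.1 + x.2) with hE
  have hsplit : S = tri n ∪ E := by
    ext x
    rw [Finset.mem_union, mem_tri, hE, Finset.mem_filter]
    constructor
    · intro h
      by_cases hx : x.1 + x.2 ≤ n
      · left
        exact hx
      · right
        exact ⟨h, by omega⟩
    · rintro (h | h)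
      · exact htri x.1 x.2 h
      · exact h.1
  have hdisj : Disjoint (tri n) E := by
    rw [Finset.disjoint_left]
    intro x hx hx2
    rw [mem_tri] at hx
    rw [hE, Finset.mem_filter] at hx2
    omega
  have hEcard : E.card + 1 = (tri (p + 1)).card := by
    have h1 : S.card = (tri n).card + E.card := by
      rw [← Finset.card_union_of_disjoint hdisj, ← hsplit]
    rw [hcard, card_tri] at h1
    rw [card_tri]
    have hpos : 1 ≤ (p + 1 + 1) * (p + 1 + 2) / 2 := by
      rw [Nat.le_div_iff_mul_le (by norm_num)]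
      nlinarith
    omega
  -- the class map
  set cl : ℕ × ℕ → ℤ := fun x => (x.1 : ℤ) - p * x.2 with hcl
  have hinj : Set.InjOn cl ((tri (p + 1)).erase (0, 0) : Finset (ℕ × ℕ)) := by
    rintro ⟨a, b⟩ hx ⟨c, d⟩ hy hxy
    simp only [Finset.coe_erase, Set.mem_sdiff, Finset.mem_coe, mem_tri, Set.mem_singleton_iff,
      Prod.mk.injEq] at hx hy
    simp only [hcl] at hxy
    obtain ⟨hx1, hx2⟩ := hx
    obtain ⟨hy1, hy2⟩ := hy
    have hp' : (1 : ℤ) ≤ p := by exact_mod_cast hp
    have hx1' : (a : ℤ) + b ≤ p + 1 := by exact_mod_cast hx1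
    have hy1' : (c : ℤ) + d ≤ p + 1 := by exact_mod_cast hy1
    have key : (a : ℤ) - c = p * ((b : ℤ) - d) := by linarith
    rcases lt_trichotomy (b : ℤ) d with h | h | h
    · exfalso
      have h1 : (c : ℤ) = a + p * ((d : ℤ) - b) := by linarith
      have h2 : (1 : ℤ) ≤ (d : ℤ) - b := by linarith
      have h3 : (p : ℤ) ≤ p * ((d : ℤ) - b) := by nlinarith
      have ha0 : (0 : ℤ) ≤ a := by positivity
      have hb0 : (0 : ℤ) ≤ b := by positivity
      have h5 : (a : ℤ) = 0 := by linarith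
      have h6 : (b : ℤ) = 0 := by linarith
      apply hx2
      exact ⟨by exact_mod_cast h5, by exact_mod_cast h6⟩
    · have h1 : (a : ℤ) = c := by
        rw [h, sub_self, mul_zero] at key
        linarith
      rw [Prod.mk.injEq]
      exact ⟨by exact_mod_cast h1, by exact_mod_cast h⟩
    · exfalso
      have h1 : (a : ℤ) = c + p * ((b : ℤ) - d) := by linarith
      have h2 : (1 : ℤ) ≤ (b : ℤ) - d := by linarith
      have h3 : (p : ℤ) ≤ p * ((b : ℤ) - d) := by nlinarith
      have ha0 : (0 : ℤ) ≤ c := by positivity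
      have hb0 : (0 : ℤ) ≤ d := by positivity
      have h5 : (c : ℤ) = 0 := by linarith
      have h6 : (d : ℤ) = 0 := by linarith
      apply hy2
      exact ⟨by exact_mod_cast h5, by exact_mod_cast h6⟩
  have hCcard : (tri (p + 1)).card ≤ ((tri (p + 1)).image cl).card + 1 := by
    have h1 : (((tri (p + 1)).erase (0, 0)).image cl).card = ((tri (p + 1)).erase (0, 0)).card :=
      Finset.card_image_of_injOn hinj
    have h2 : (((tri (p + 1)).erase (0, 0)).image cl).card ≤ ((tri (p + 1)).image cl).card :=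
      Finset.card_le_card (Finset.image_subset_image (Finset.erase_subset _ _))
    have h3 : ((tri (p + 1)).erase (0, 0)).card + 1 = (tri (p + 1)).card :=
      Finset.card_erase_add_one (by rw [mem_tri]; simp)
    omega
  -- the bad point
  obtain ⟨j, k, hjk, hlt, hclass⟩ := hcon (p + 1) 0 (by omega)
  have hclass' : (j : ℤ) = p + 1 + p * k := by
    push_cast at hclass
    linarith
  have hj : j = p + 1 + p * k := by exact_mod_cast hclass'
  have hdeg : j + k = (p + 1) * (k + 1) := by rw [hj]; ring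
  have hkt : t ≤ k := by
    have h1 : (p + 1) * t < (p + 1) * (k + 1) := by
      rw [← hdeg]
      exact hlt
    have h2 := Nat.lt_of_mul_lt_mul_left h1
    omega
  have hk1 : 1 ≤ k := le_trans ht hkt
  have hbad : (j, k - 1) ∈ E := by
    rw [hE, Finset.mem_filter]
    refine ⟨hdown j k j (k - 1) hjk le_rfl (by omega), ?_⟩
    show n < j + (k - 1)
    have h1 : n + (p + 1) ≤ j + k := by
      rw [hdeg, hn]
      nlinarith
    omega
  have hbadcl : p + 1 < cl (j, k - 1) := by
    simp only [hcl]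
    rw [hj]
    push_cast [Nat.cast_sub hk1]
    have hp' : (1 : ℤ) ≤ p := by exact_mod_cast hp
    linarith
  have hCsub : (tri (p + 1)).image cl ⊆ (E.erase (j, k - 1)).image cl := by
    intro c hc
    rw [Finset.mem_image] at hc
    obtain ⟨⟨a, b⟩, hab, rfl⟩ := hc
    rw [mem_tri] at hab
    obtain ⟨j', k', hjk', hlt', hclass''⟩ := hcon a b hab
    rw [Finset.mem_image]
    refine ⟨(j', k'), ?_, hclass''⟩
    rw [Finset.mem_erase, hE, Finset.mem_filter]
    refine ⟨?_, hjk', hlt'⟩
    intro heq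
    have h1 : cl (j', k') = cl (j, k - 1) := by rw [heq]
    have h2 : cl (j', k') = (a : ℤ) - p * b := hclass''
    rw [h1] at h2
    rw [h2] at hbadcl
    have h3 : (0 : ℤ) ≤ p * b := by positivity
    have h4 : (a : ℤ) ≤ p + 1 := by
      have : a ≤ p + 1 := by
        simp only at hab
        omega
      exact_mod_cast this
    linarith
  have h1 := Finset.card_le_card hCsub
  have h2 : ((E.erase (j, k - 1)).image cl).card ≤ (E.erase (j, k - 1)).card :=
    Finset.card_image_le
  have h3 : (E.erase (j, k - 1)).card + 1 = E.card := Finset.card_erase_add_one hbad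
  omega

/-- The power series `∑ (z₁^p z₂)^i`. -/
def fser (p : ℕ) : MvPowerSeries (Fin 2) ℂ := fun m => if m 0 = p * m 1 then 1 else 0

lemma coeff_fser (p : ℕ) (m : Fin 2 →₀ ℕ) :
    MvPowerSeries.coeff m (fser p) = if m 0 = p * m 1 then 1 else 0 := rfl

/-- The denominator `1 - z₁^p z₂`. -/
def den (p : ℕ) : MvPolynomial (Fin 2) ℂ := 1 - MvPolynomial.monomial (idx p 1) 1

lemma den_eq (p : ℕ) : den p = 1 - MvPolynomial.X 0 ^ p * MvPolynomial.X 1 := by
  rw [den, MvPolynomial.X_pow_eq_monomial, MvPolynomial.X, MvPolynomial.monomial_mul, mul_one, idx]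

lemma eval_den (p : ℕ) (z : Fin 2 → ℂ) :
    MvPolynomial.eval z (den p) = 1 - z 0 ^ p * z 1 := by
  rw [den, map_sub, map_one, MvPolynomial.eval_monomial, one_mul,
    Finsupp.prod_fintype _ _ (fun _ => pow_zero _), Fin.prod_univ_two, idx_zero, idx_one, pow_one]

lemma totalDegree_den (p : ℕ) : (den p).totalDegree = p + 1 := by
  apply le_antisymm
  · rw [den]
    refine (MvPolynomial.totalDegree_sub _ _).trans ?_
    rw [MvPolynomial.totalDegree_one, MvPolynomial.totalDegree_monomial _ one_ne_zero, idx_sum]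
    simp
  · have h : idx p 1 ∈ (den p).support := by
      rw [MvPolynomial.mem_support_iff, den, MvPolynomial.coeff_sub, MvPolynomial.coeff_monomial,
        if_pos rfl, MvPolynomial.coeff_one, if_neg]
      · norm_num
      · intro h0
        have : (0 : Fin 2 →₀ ℕ) 1 = idx p 1 1 := by rw [h0]
        simp at this
    have h2 := MvPolynomial.le_totalDegree h
    rwa [idx_sum] at h2

lemma den_ne_zero (p : ℕ) : den p ≠ 0 := by
  intro h
  have := totalDegree_den p
  rw [h, MvPolynomial.totalDegree_zero] at this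
  omega

lemma coe_den (p : ℕ) : ((den p : MvPolynomial (Fin 2) ℂ) : MvPowerSeries (Fin 2) ℂ)
    = 1 - MvPowerSeries.monomial (idx p 1) 1 := by
  ext m
  rw [MvPolynomial.coeff_coe, den, MvPolynomial.coeff_sub, map_sub,
    ← MvPolynomial.coeff_coe, ← MvPolynomial.coeff_coe, MvPolynomial.coe_one,
    MvPolynomial.coe_monomial]

lemma den_mul_fser (p : ℕ) (hp : 1 ≤ p) :
    ((den p : MvPolynomial (Fin 2) ℂ) : MvPowerSeries (Fin 2) ℂ) * fser p = 1 := by
  ext m
  rw [coe_den, sub_mul, one_mul, map_sub, MvPowerSeries.coeff_monomial_mul,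
    MvPowerSeries.coeff_one]
  rw [eq_idx m]
  generalize m 0 = j
  generalize m 1 = k
  rw [coeff_fser, idx_sub, coeff_fser, idx_zero, idx_one, idx_zero, idx_one, one_mul]
  have h0 : (0 : Fin 2 →₀ ℕ) = idx 0 0 := by
    ext i
    fin_cases i <;> simp
  simp only [h0, idx_inj, idx_le]
  by_cases hk : k = 0
  · subst hk
    simp
  · obtain ⟨k, rfl⟩ := Nat.exists_eq_succ_of_ne_zero hk
    by_cases hjp : p ≤ j
    · obtain ⟨j, rfl⟩ := Nat.exists_eq_add_of_le hjp
      have h1 : (p + j = p * (k + 1)) ↔ (p + j - p = p * (k + 1 - 1)) := by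
        rw [Nat.add_sub_cancel_left, Nat.add_sub_cancel, Nat.mul_succ]
        constructor <;> intro h <;> omega
      simp only [Nat.succ_eq_add_one]
      have h2 : p ≤ p + j ∧ 1 ≤ k + 1 := ⟨hjp, by omega⟩
      have h3 : ¬ (p + j = 0 ∧ k + 1 = 0) := by omega
      rw [if_pos h2, if_neg h3]
      by_cases h4 : p + j = p * (k + 1)
      · rw [if_pos h4, if_pos (h1.1 h4), sub_self]
      · rw [if_neg h4, if_neg (fun h => h4 (h1.2 h)), sub_self]
    · have h1 : ¬ (j = p * Nat.succ k) := by
        intro h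
        apply hjp
        rw [h, Nat.mul_succ]
        omega
      rw [if_neg h1, if_neg (fun h => hjp h.1), if_neg (fun h => hk h.2), sub_zero]

lemma taylor_fser (p : ℕ) :
    IsTaylorSeriesAtZero (fser p) (fun z => 1 / MvPolynomial.eval z (den p)) := by
  have hnb : ∀ᶠ z : Fin 2 → ℂ in 𝓝 0, ‖z 0 ^ p * z 1‖ < 1 := by
    have hc : Continuous (fun z : Fin 2 → ℂ => ‖z 0 ^ p * z 1‖) := by fun_prop
    have h0 : ‖(0 : Fin 2 → ℂ) 0 ^ p * (0 : Fin 2 → ℂ) 1‖ < 1 := by simp
    exact hc.continuousAt.eventually_lt continuousAt_const h0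
  filter_upwards [hnb] with z hz
  rw [eval_den, one_div]
  have h := hasSum_geometric_of_norm_lt_one hz
  have hinj : Function.Injective (fun i : ℕ => idx (p * i) i) := by
    intro i j hij
    exact ((idx_inj _ _ _ _).1 hij).2
  rw [← hinj.hasSum_iff]
  · have h5 : ((fun m : Fin 2 →₀ ℕ => MvPowerSeries.coeff m (fser p) * ∏ i, z i ^ m i) ∘
        fun i => idx (p * i) i) = fun n => (z 0 ^ p * z 1) ^ n := by
      funext i
      simp only [Function.comp]
      rw [coeff_fser, idx_zero, idx_one, if_pos rfl, Fin.prod_univ_two, idx_zero, idx_one, one_mul,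
        mul_pow, ← pow_mul]
    rw [h5]
    exact h
  · intro m hm
    rw [coeff_fser, if_neg, zero_mul]
    intro h1
    apply hm
    refine ⟨m 1, ?_⟩
    simp only
    rw [← h1]
    exact (eq_idx m).symm

/-- The numerator of the bad approximant: the truncation of `z₁^a z₂^b f`. -/
def num (p a b I : ℕ) : MvPolynomial (Fin 2) ℂ :=
  ∑ i ∈ Finset.range (I + 1), MvPolynomial.monomial (idx (a + p * i) (b + i)) 1

lemma totalDegree_num (p a b I n : ℕ) (h : a + b + (p + 1) * I ≤ n) :
    (num p a b I).totalDegree ≤ n := by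
  rw [num]
  apply MvPolynomial.totalDegree_finsetSum_le
  intro i hi
  rw [MvPolynomial.totalDegree_monomial _ one_ne_zero, idx_sum]
  rw [Finset.mem_range] at hi
  have h1 : (p + 1) * i ≤ (p + 1) * I := Nat.mul_le_mul_left _ (by omega)
  have h2 : a + p * i + (b + i) = a + b + (p + 1) * i := by ring
  omega

lemma coeff_num (p a b I j k : ℕ) :
    MvPolynomial.coeff (idx j k) (num p a b I)
      = if (∃ i ≤ I, j = a + p * i ∧ k = b + i) then 1 else 0 := by
  classical
  rw [num, MvPolynomial.coeff_sum]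
  simp only [MvPolynomial.coeff_monomial, idx_inj]
  by_cases h : ∃ i ≤ I, j = a + p * i ∧ k = b + i
  · rw [if_pos h]
    obtain ⟨i, hi, h1, h2⟩ := h
    rw [Finset.sum_eq_single i]
    · rw [if_pos ⟨h1.symm, h2.symm⟩]
    · intro i' _ hne
      rw [if_neg]
      rintro ⟨_, h4⟩
      apply hne
      omega
    · intro hni
      rw [Finset.mem_range] at hni
      omega
  · rw [if_neg h]
    apply Finset.sum_eq_zero
    intro i hi
    rw [Finset.mem_range] at hi
    rw [if_neg]
    rintro ⟨h1, h2⟩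
    exact h ⟨i, by omega, h1.symm, h2.symm⟩

lemma eval_two_monomial (j k : ℕ) :
    MvPolynomial.eval (fun _ => (2 : ℂ)) (MvPolynomial.monomial (idx j k) 1) = 2 ^ (j + k) := by
  rw [MvPolynomial.eval_monomial, one_mul, Finsupp.prod_fintype _ _ (fun _ => pow_zero _),
    Fin.prod_univ_two, idx_zero, idx_one, ← pow_add]

lemma eval_two_num (p a b I : ℕ) :
    MvPolynomial.eval (fun _ => (2 : ℂ)) (num p a b I)
      = 2 ^ (a + b) * ∑ i ∈ Finset.range (I + 1), (2 : ℂ) ^ ((p + 1) * i) := by
  rw [num, map_sum, Finset.mul_sum]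
  apply Finset.sum_congr rfl
  intro i _
  rw [eval_two_monomial, ← pow_add]
  congr 1
  ring

/-- For `n = ν t`, `t ≥ 1`, every interpolation set admits a bad approximant. -/
lemma bad_approximant (p t : ℕ) (hp : 1 ≤ p) (ht : 1 ≤ t) (S : Finset (ℕ × ℕ))
    (hS : IsInterpolationSet ((p + 1) * t) (p + 1) S) :
    ∃ P Q : MvPolynomial (Fin 2) ℂ, IsApproximant ((p + 1) * t) (p + 1) S (fser p) P Q ∧
      1 ≤ ‖MvPolynomial.eval (fun _ => (2 : ℂ)) P / MvPolynomial.eval (fun _ => (2 : ℂ)) Q
        - 1 / MvPolynomial.eval (fun _ => (2 : ℂ)) (den p)‖ := by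
  classical
  obtain ⟨a, b, hab, hmiss⟩ := missed_class p t hp ht S hS
  set n := (p + 1) * t with hn
  have hnab : a + b ≤ n := by
    rw [hn]
    nlinarith
  set I := (n - (a + b)) / (p + 1) with hI
  have hI1 : a + b + (p + 1) * I ≤ n := by
    have := Nat.mul_div_le (n - (a + b)) (p + 1)
    rw [← hI] at this
    omega
  have hI2 : ∀ i, a + b + (p + 1) * i ≤ n → i ≤ I := by
    intro i hi
    rw [hI, Nat.le_div_iff_mul_le (by omega), mul_comm]
    omega
  refine ⟨num p a b I, MvPolynomial.monomial (idx a b) 1, ⟨totalDegree_num p a b I n hI1, ?_, ?_, ?_⟩, ?_⟩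
  · rw [Ne, MvPolynomial.monomial_eq_zero]
    exact one_ne_zero
  · rw [MvPolynomial.totalDegree_monomial _ one_ne_zero, idx_sum]
    exact hab
  · intro j k hjk
    rw [map_sub, MvPolynomial.coe_monomial, MvPowerSeries.coeff_monomial_mul, MvPolynomial.coeff_coe,
      coeff_num, one_mul, idx_sub, coeff_fser, idx_zero, idx_one]
    simp only [idx_le]
    by_cases h1 : a ≤ j ∧ b ≤ k
    · rw [if_pos h1]
      obtain ⟨j', rfl⟩ := Nat.exists_eq_add_of_le h1.1
      obtain ⟨i, rfl⟩ := Nat.exists_eq_add_of_le h1.2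
      rw [Nat.add_sub_cancel_left, Nat.add_sub_cancel_left]
      by_cases h2 : j' = p * i
      · subst h2
        rw [if_pos rfl]
        have h3 : i ≤ I := by
          apply hI2
          by_contra h4
          push Not at h4
          have h5 : n < a + p * i + (b + i) := by
            have : a + p * i + (b + i) = a + b + (p + 1) * i := by ring
            omega
          apply hmiss _ _ hjk h5
          push_cast
          ring
        rw [if_pos ⟨i, h3, rfl, rfl⟩, sub_self]
      · rw [if_neg h2, if_neg, sub_self]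
        rintro ⟨i', _, h5, h6⟩
        apply h2
        have h7 : i = i' := by omega
        rw [h7]
        omega
    · rw [if_neg h1, if_neg, sub_self]
      rintro ⟨i', _, h5, h6⟩
      apply h1
      constructor
      · rw [h5]
        exact Nat.le_add_right _ _
      · omega
  · rw [eval_two_num, eval_two_monomial, eval_den]
    have h2 : (2 : ℂ) ^ (a + b) ≠ 0 := pow_ne_zero _ two_ne_zero
    rw [mul_div_cancel_left₀ _ h2]
    have hcast : (∑ i ∈ Finset.range (I + 1), (2 : ℂ) ^ ((p + 1) * i)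
        - 1 / (1 - (2 : ℂ) ^ p * 2))
        = (((∑ i ∈ Finset.range (I + 1), (2 : ℝ) ^ ((p + 1) * i)
          - 1 / (1 - (2 : ℝ) ^ p * 2)) : ℝ) : ℂ) := by
      push_cast
      rfl
    show 1 ≤ ‖(∑ i ∈ Finset.range (I + 1), (2 : ℂ) ^ ((p + 1) * i)
        - 1 / (1 - (2 : ℂ) ^ p * 2))‖
    rw [hcast, Complex.norm_real, Real.norm_eq_abs]
    refine le_trans ?_ (le_abs_self _)
    have h3 : (1 : ℝ) ≤ ∑ i ∈ Finset.range (I + 1), (2 : ℝ) ^ ((p + 1) * i) := by
      rw [Finset.sum_range_succ']
      have : (0 : ℝ) ≤ ∑ i ∈ Finset.range I, (2 : ℝ) ^ ((p + 1) * (i + 1)) :=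
        Finset.sum_nonneg (fun i _ => by positivity)
      simp only [mul_zero, pow_zero]
      linarith
    have h4 : 1 / (1 - (2 : ℝ) ^ p * 2) ≤ 0 := by
      apply div_nonpos_of_nonneg_of_nonpos zero_le_one
      have : (1 : ℝ) ≤ 2 ^ p := one_le_pow₀ (by norm_num)
      linarith
    linarith

/-- The pair `(1, G)` is an approximant for every interpolation set. -/
lemma good_approximant (n p : ℕ) (hp : 1 ≤ p) (S : Finset (ℕ × ℕ)) :
    IsApproximant n (p + 1) S (fser p) 1 (den p) := by
  refine ⟨?_, den_ne_zero p, (totalDegree_den p).le, ?_⟩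
  · rw [MvPolynomial.totalDegree_one]
    exact Nat.zero_le _
  · intro j k _
    rw [den_mul_fser p hp, MvPolynomial.coe_one, sub_self, map_zero]

/-- For every `ν ≥ 2` the assertion of Q1 fails, already for `F = 1` and `G = 1 - z₁^(ν-1) z₂`: whatever interpolation sets `S_n` for type `(n,ν)` are chosen, some sequence of
corresponding approximants `P_n/Q_n` to `f = 1/G` does not converge to `f` on `ℂ² ∖ {G = 0}`. -/
theorem result (ν : ℕ) (hν : 2 ≤ ν) :
    ∃ (F : (Fin 2 → ℂ) → ℂ) (G : MvPolynomial (Fin 2) ℂ) (f : MvPowerSeries (Fin 2) ℂ),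
      (∀ z, F z = 1) ∧ Differentiable ℂ F ∧
      G = 1 - MvPolynomial.X 0 ^ (ν - 1) * MvPolynomial.X 1 ∧
      G.totalDegree = ν ∧ MvPolynomial.eval 0 G ≠ 0 ∧
      IsTaylorSeriesAtZero f (fun z => F z / MvPolynomial.eval z G) ∧
      ∀ S : ℕ → Finset (ℕ × ℕ), (∀ n, IsInterpolationSet n ν (S n)) →
        ∃ P Q : ℕ → MvPolynomial (Fin 2) ℂ,
          (∀ n, IsApproximant n ν (S n) f (P n) (Q n)) ∧
          ¬ ConvergesOn P Q (fun z => F z / MvPolynomial.eval z G)
            {z | MvPolynomial.eval z G ≠ 0} := by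
  classical
  obtain ⟨p, rfl⟩ : ∃ p, ν = p + 1 := ⟨ν - 1, by omega⟩
  have hp : 1 ≤ p := by omega
  refine ⟨fun _ => 1, den p, fser p, fun _ => rfl, differentiable_const _, den_eq p,
    totalDegree_den p, ?_, taylor_fser p, ?_⟩
  · rw [eval_den]
    simp
  · intro S hS
    have hex : ∀ n, ∃ PQ : MvPolynomial (Fin 2) ℂ × MvPolynomial (Fin 2) ℂ,
        IsApproximant n (p + 1) (S n) (fser p) PQ.1 PQ.2 ∧
        (∀ t, 1 ≤ t → n = (p + 1) * t →
          1 ≤ ‖MvPolynomial.eval (fun _ => (2 : ℂ)) PQ.1 / MvPolynomial.eval (fun _ => (2 : ℂ)) PQ.2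
            - 1 / MvPolynomial.eval (fun _ => (2 : ℂ)) (den p)‖) := by
      intro n
      by_cases hn : ∃ t, 1 ≤ t ∧ n = (p + 1) * t
      · obtain ⟨t, ht, rfl⟩ := hn
        obtain ⟨P, Q, h1, h2⟩ := bad_approximant p t hp ht _ (hS _)
        exact ⟨(P, Q), h1, fun _ _ _ => h2⟩
      · refine ⟨(1, den p), good_approximant n p hp _, ?_⟩
        intro t ht hnt
        exact absurd ⟨t, ht, hnt⟩ hn
    choose PQ hPQ hbad using hex
    refine ⟨fun n => (PQ n).1, fun n => (PQ n).2, hPQ, ?_⟩
    intro hconv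
    set z₀ : Fin 2 → ℂ := fun _ => (2 : ℂ) with hz₀
    have hz₀mem : MvPolynomial.eval z₀ (den p) ≠ 0 := by
      rw [eval_den]
      have h1 : (1 - z₀ 0 ^ p * z₀ 1) = (((1 - (2:ℝ) ^ p * 2) : ℝ) : ℂ) := by
        push_cast
        rfl
      rw [h1, Complex.ofReal_ne_zero]
      have : (1 : ℝ) ≤ 2 ^ p := one_le_pow₀ (by norm_num)
      linarith
    obtain ⟨-, hu⟩ := hconv {z₀} (by
      intro z hz
      rw [Set.mem_singleton_iff] at hz
      subst hz
      exact hz₀mem) isCompact_singleton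
    have hlim := hu.tendsto_at (Set.mem_singleton z₀)
    rw [Metric.tendsto_atTop] at hlim
    obtain ⟨N, hN⟩ := hlim 1 one_pos
    have h1 := hN ((p + 1) * (N + 1)) (by nlinarith)
    have h2 := hbad ((p + 1) * (N + 1)) (N + 1) (by omega) rfl
    rw [dist_eq_norm] at h1
    linarith

end

end Pool.Agent.Results.MP_a75ade_an.NoMontessusSets
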